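import Pool.Agent.Helper74.CO.Goals

set_option autoImplicit false

namespace Pool.Agent.Helper85.CO

open Finset Pool.Agent.Helper74.CO

theorem ex_add' (s t : ℝ) : ex (s + t) = ex s * ex t := by
  unfold ex
  rw [← Complex.exp_add]
  congr 1
  push_cast
  ring

theorem norm_ex' (t : ℝ) : ‖ex t‖ = 1 := by
  unfold ex
  have : (2 * (Real.pi : ℂ) * (t : ℂ) * Complex.I) = ((2 * Real.pi * t : ℝ) : ℂ) * Complex.I := by
    push_cast; ring
  rw [this]
  exact Complex.norm_exp_ofReal_mul_I _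

theorem ex_zero' : ex 0 = 1 := by simp [ex]

/-- the key bound -/
theorem key (K : ℕ) (κ : ℝ) (p : ℕ) [Fact p.Prime] (g c e : ZMod p)
    (hMIX : MIX (ZMod p)) (hJAC : JAC (ZMod p)) (hGAU : GAU (ZMod p)) (hCHM : CHM) (hCHA : CHA)
    (hκ : 0 < κ) (hp5 : K + 5 ≤ p)
    (hlim : ∀ x : ℝ, 0 ≤ x → x ^ 2 ≤ 16 * p * √p → x + 5 ≤ κ * (p - 5))
    (hg : Gen g) (hc : c ≠ 0) (he : e ≠ 0) :
    Eq3 (Xw e 0) (aw p g c) (fun x => aw p g c (Mw e 0 x)) (cw p) K κ := by
  have hcard : Fintype.card (ZMod p) = p := ZMod.card p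
  have hp1 : (1 : ℝ) ≤ p := by
    have : 1 ≤ p := by omega
    exact_mod_cast this
  have hsq1 : 1 ≤ √(p : ℝ) := by
    rw [Real.one_le_sqrt]; exact hp1
  obtain ⟨χ, hχ, hχ1⟩ := hCHM (ZMod p) g hg (by rw [hcard]; omega)
  obtain ⟨ψ, hψ, -, hψ0, hψ1⟩ := hCHA p
  rw [hcard] at hχ hχ1
  intro j k l hj hk hl hne
  -- rewriting the summand
  have hnχ : ∀ (i : ℤ) (x : ZMod p), ‖(χ ^ i) x‖ ≤ 1 := by
    intro i x
    by_cases hx : x = 0
    · rw [hx, MulChar.map_zero]; simp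
    · rw [hχ x hx i, norm_ex']
  have haw : ∀ (i : ℤ) (x : ZMod p), x ≠ 0 → ex (i * aw p g c x) = (χ ^ i) (x * c⁻¹) := by
    intro i x hx
    have hxc : x * c⁻¹ ≠ 0 := mul_ne_zero hx (inv_ne_zero hc)
    rw [hχ _ hxc i]
    unfold aw
    rw [div_eq_mul_inv x c]
  have hX : ∀ x ∈ Xw e 0, x ≠ 0 ∧ x ≠ e := by
    intro x hx
    simp only [Xw, mem_filter, mem_univ, true_and] at hx
    exact ⟨hx.1, hx.2.2⟩
  have hXcard : (p : ℝ) - 5 ≤ #(Xw e (0 : ZMod p)) := by
    have h1 : (univ : Finset (ZMod p)) ⊆ Xw e 0 ∪ {0, e} := by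
      intro x _
      by_cases h0 : x = 0
      · simp [h0]
      · by_cases h2 : x = e
        · simp [h2]
        · simp [Xw, h0, h2]
    have h2 := card_le_card h1
    have h3 := card_union_le (Xw e (0 : ZMod p)) {0, e}
    have h4 : #({0, e} : Finset (ZMod p)) ≤ 2 := card_le_two
    rw [card_univ, hcard] at h2
    have h5 : p ≤ #(Xw e (0 : ZMod p)) + 2 := by omega
    have h6 : (p : ℝ) ≤ #(Xw e (0 : ZMod p)) + 2 := by exact_mod_cast h5
    linarith
  have hterm : ∀ x ∈ Xw e 0, ex (j * aw p g c x + k * aw p g c (Mw e 0 x) + l * cw p x) =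
      ((χ ^ j) c⁻¹ * (χ ^ k) (e * c⁻¹)) *
        ((χ ^ (j + k)) x * ((χ ^ (-k)) (x - e) * ψ l x)) := by
    intro x hx
    obtain ⟨hx0, hxe⟩ := hX x hx
    have hxe' : x - e ≠ 0 := sub_ne_zero.mpr hxe
    have hM : Mw e 0 x ≠ 0 := by
      unfold Mw
      rw [sub_zero]
      exact div_ne_zero (mul_ne_zero he hx0) hxe'
    rw [ex_add', ex_add', haw j x hx0, haw k _ hM, ← hψ]
    have hMv : Mw e 0 x * c⁻¹ = (e * c⁻¹) * (x * (x - e)⁻¹) := by
      unfold Mw
      rw [sub_zero, div_eq_mul_inv]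
      ring
    rw [hMv, map_mul, map_mul, map_mul, map_mul]
    have hinv : (χ ^ k) (x - e)⁻¹ = (χ ^ (-k)) (x - e) := by
      rw [zpow_neg, MulChar.inv_apply']
    rw [hinv, zpow_add, MulChar.mul_apply]
    ring
  rw [sum_congr rfl hterm, ← mul_sum, norm_mul]
  have hC0 : ‖(χ ^ j) c⁻¹ * (χ ^ k) (e * c⁻¹)‖ ≤ 1 := by
    rw [norm_mul]
    exact mul_le_one₀ (hnχ _ _) (norm_nonneg _) (hnχ _ _)
  have hψn : ∀ x, ‖ψ l x‖ = 1 := fun x => by rw [hψ, norm_ex']
  suffices hS : ‖∑ x ∈ Xw e 0, ((χ ^ (j + k)) x * ((χ ^ (-k)) (x - e) * ψ l x))‖ ≤ κ * (p - 5) by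
    calc ‖(χ ^ j) c⁻¹ * (χ ^ k) (e * c⁻¹)‖ *
          ‖∑ x ∈ Xw e 0, ((χ ^ (j + k)) x * ((χ ^ (-k)) (x - e) * ψ l x))‖
        ≤ 1 * (κ * (p - 5)) := by
          apply mul_le_mul hC0 hS (norm_nonneg _) zero_le_one
      _ = κ * (p - 5) := one_mul _
      _ ≤ κ * #(Xw e (0 : ZMod p)) := by
          exact mul_le_mul_of_nonneg_left hXcard hκ.le
  -- all points
  have hbig : ∀ S : ℝ, 0 ≤ S → S ^ 2 ≤ 7 * p * √p ∨ S ^ 2 ≤ 4 * p → S + 5 ≤ κ * (p - 5) := by
    intro S hS0 hS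
    apply hlim S hS0
    have hp0 : (0 : ℝ) ≤ p := by linarith
    have hpp : (p : ℝ) ≤ p * √p := by nlinarith
    have hpp0 : (0 : ℝ) ≤ p * √p := by linarith
    rcases hS with h | h
    · nlinarith
    · nlinarith
  by_cases hk0 : k = 0
  · subst hk0
    have hone : ∀ x ∈ Xw e 0, ((χ ^ (j + 0)) x * ((χ ^ (-0 : ℤ)) (x - e) * ψ l x)) =
        (χ ^ j) x * ψ l x := by
      intro x hx
      obtain ⟨hx0, hxe⟩ := hX x hx
      have hxe' : x - e ≠ 0 := sub_ne_zero.mpr hxe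
      rw [add_zero, neg_zero, zpow_zero, MulChar.one_apply (isUnit_iff_ne_zero.mpr hxe'), one_mul]
    rw [sum_congr rfl hone]
    have hsplit : ∑ x ∈ Xw e 0, (χ ^ j) x * ψ l x =
        (∑ x, (χ ^ j) x * ψ l x) - (χ ^ j) e * ψ l e := by
      have h1 : Xw e (0 : ZMod p) = (univ.erase (0 : ZMod p)).erase e := by
        ext x
        simp only [Xw, mem_filter, mem_univ, true_and, mem_erase, and_true]
        tauto
      have h2 : e ∈ univ.erase (0 : ZMod p) := by simp [he]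
      have h3 := add_sum_erase (univ.erase (0 : ZMod p)) (fun x => (χ ^ j) x * ψ l x) h2
      have h4 := add_sum_erase (univ : Finset (ZMod p)) (fun x => (χ ^ j) x * ψ l x)
        (mem_univ (0 : ZMod p))
      simp only [MulChar.map_zero, zero_mul, zero_add] at h4
      rw [h1, ← h4, ← h3]
      ring
    rw [hsplit]
    have hall : ‖∑ x, (χ ^ j) x * ψ l x‖ + 5 ≤ κ * (p - 5) := by
      apply hbig _ (norm_nonneg _)
      right
      by_cases hl0 : l = 0
      · subst hl0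
        have hj0 : j ≠ 0 := fun h => hne ⟨h, rfl, rfl⟩
        have hχj : χ ^ j ≠ 1 := hχ1 j hj0 (by
          have : (K : ℤ) + 5 ≤ p := by exact_mod_cast hp5
          omega)
        have : ∑ x, (χ ^ j) x * ψ 0 x = 0 := by
          rw [hψ0]
          simp only [AddChar.one_apply, mul_one]
          exact MulChar.sum_eq_zero_of_ne_one hχj
        rw [this]
        simp
      · have hψl : ψ l ≠ 1 := hψ1 l hl0 (by
          have : (K : ℤ) + 5 ≤ p := by exact_mod_cast hp5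
          omega)
        have h := hGAU (χ ^ j) (ψ l) hψl
        rw [hcard] at h
        exact h
    have hlast : ‖(χ ^ j) e * ψ l e‖ ≤ 1 := by
      rw [norm_mul, hψn, mul_one]; exact hnχ _ _
    have := norm_sub_le (∑ x, (χ ^ j) x * ψ l x) ((χ ^ j) e * ψ l e)
    linarith
  · have hχk : χ ^ (-k) ≠ 1 := hχ1 (-k) (by omega) (by
      have : (K : ℤ) + 5 ≤ p := by exact_mod_cast hp5
      rw [abs_neg]
      omega)
    have hall : ∑ x ∈ Xw e 0, ((χ ^ (j + k)) x * ((χ ^ (-k)) (x - e) * ψ l x)) =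
        ∑ x, ((χ ^ (j + k)) x * ((χ ^ (-k)) (x - e) * ψ l x)) := by
      apply sum_subset (subset_univ _)
      intro x _ hx
      have hx' : x = 0 ∨ x = e := by
        by_contra hcon
        push Not at hcon
        apply hx
        simp [Xw, hcon.1, hcon.2]
      rcases hx' with h | h
      · rw [h, MulChar.map_zero, zero_mul]
      · rw [h, sub_self, MulChar.map_zero]; simp
    rw [hall]
    have hb : ‖∑ x, ((χ ^ (j + k)) x * ((χ ^ (-k)) (x - e) * ψ l x))‖ + 5 ≤ κ * (p - 5) := by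
      apply hbig _ (norm_nonneg _)
      by_cases hl0 : l = 0
      · right
        subst hl0
        rw [hψ0]
        simp only [AddChar.one_apply, mul_one]
        have h := hJAC (χ ^ (j + k)) (χ ^ (-k)) e hχk he
        rw [hcard] at h
        exact h
      · left
        have hψl : ψ l ≠ 1 := hψ1 l hl0 (by
          have : (K : ℤ) + 5 ≤ p := by exact_mod_cast hp5
          omega)
        have h := hMIX (χ ^ (j + k)) (χ ^ (-k)) (ψ l) e hχk hψl he
        rw [hcard] at h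
        exact h
    linarith

/-- **WB** -/
theorem t_WB (hLIM : LIM)
    (hMIX : ∀ (F : Type) [Field F] [Fintype F] [DecidableEq F], MIX F)
    (hJAC : ∀ (F : Type) [Field F] [Fintype F] [DecidableEq F], JAC F)
    (hGAU : ∀ (F : Type) [Field F] [Fintype F] [DecidableEq F], GAU F)
    (hCHM : CHM) (hCHA : CHA) : Pool.Agent.Helper74.CO.WB := by
  intro K κ hκ
  obtain ⟨q1, hq1⟩ := hLIM κ hκ
  refine ⟨max q1 (K + 5), ?_⟩
  intro p _ g c e hp hg hc he
  exact key K κ p g c e (hMIX (ZMod p)) (hJAC (ZMod p)) (hGAU (ZMod p)) hCHM hCHA hκ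
    (le_trans (le_max_right _ _) hp) (hq1 p (le_trans (le_max_left _ _) hp)) hg hc he

end Pool.Agent.Helper85.CO
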